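import Pool.Agent.H700R3.PowDiff.Cells

/-!
# Difference sets of the cells of a cover of a group by at most four sets
-/

set_option autoImplicit false
open scoped Pointwise

namespace Pool.Agent.Results.MP_bb8083_al.UpToFour

open Pool.Agent.H700R3.PowDiff

/-- For every group `G` and every cover of `G` by `n ≤ 4` sets, some set `A i` of the cover has
`(A i * (A i)⁻¹) ^ (4 ^ (n - 1))` equal to a subgroup of `G` of finite index at most `n`. -/
theorem result :
    ∀ (G : Type*) [Group G] (n : ℕ) (A : Fin n → Set G), n ≤ 4 →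
      (⋃ i, A i) = Set.univ →
      ∃ i : Fin n, ∃ H : Subgroup G,
        ((A i * (A i)⁻¹) ^ (4 ^ (n - 1)) : Set G) = (H : Set G) ∧
        H.index ≠ 0 ∧ H.index ≤ n := by
  intro G _ n A hn hA
  have hA' : ∀ g, ∃ i, g ∈ A i := fun g => by
    have := Set.mem_univ g
    rw [← hA, Set.mem_iUnion] at this
    exact this
  obtain ⟨w, hw⟩ := exists_not_big A hA'
  interval_cases n
  · exact w.elim0
  · -- one set
    refine ⟨w, finish (m := 1) le_rfl _ (by norm_num) _ hw ?_⟩
    have : ∀ g, g ∈ A w := fun g => by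
      obtain ⟨i, hi⟩ := hA' g
      rwa [Subsingleton.elim w i]
    exact Cov.diff ⟨{1}, by simp, fun g _ => by simpa using this g⟩
  · -- two sets
    by_contra hno
    push Not at hno
    have hQ : ∀ i, Big 2 (A i) ∨ ¬ Cov 2 Set.univ (A i * (A i)⁻¹) := by
      intro i
      by_contra hi
      push Not at hi
      obtain ⟨H, e1, e2, e3⟩ := finish (n := 2) (m := 2) (by norm_num) (4 ^ (2 - 1))
        (by norm_num) (A i) hi.1 hi.2
      exact absurd e3 (not_le.2 (hno i H e1 e2))
    have wk : ∀ i, ¬ Cov 2 Set.univ (A i * (A i)⁻¹) := fun i h =>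
      (hQ i).elim (fun hb => not_cov_of_big hb h) (fun hb => hb h)
    refine wk 1 (two (X := A 0) (fun g => ?_) (wk 0))
    obtain ⟨i, hi⟩ := hA' g
    fin_cases i
    · exact Or.inl hi
    · exact Or.inr hi
  · -- three sets
    by_contra hno
    push Not at hno
    have hQ : ∀ i, Big 3 (A i) ∨ ¬ Cov 6 Set.univ (A i * (A i)⁻¹) := by
      intro i
      by_contra hi
      push Not at hi
      obtain ⟨H, e1, e2, e3⟩ := finish (n := 3) (m := 6) (by norm_num) (4 ^ (3 - 1))
        (by norm_num) (A i) hi.1 hi.2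
      exact absurd e3 (not_le.2 (hno i H e1 e2))
    have wk : ∀ i, ¬ Cov 3 Set.univ (A i * (A i)⁻¹) := fun i h =>
      (hQ i).elim (fun hb => not_cov_of_big hb h) (fun hb => hb (h.mono (by norm_num)))
    have hwQ : ¬ Cov 6 Set.univ (A w * (A w)⁻¹) := (hQ w).resolve_left hw
    apply hwQ
    have hcases : ∀ g, g ∈ A 0 ∨ g ∈ A 1 ∨ g ∈ A 2 := fun g => by
      obtain ⟨i, hi⟩ := hA' g
      fin_cases i
      · exact Or.inl hi
      · exact Or.inr (Or.inl hi)
      · exact Or.inr (Or.inr hi)
    fin_cases w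
    · exact three (X := A 1) (Y := A 2) (fun g => by
        rcases hcases g with h | h | h <;> simp [h]) (wk 1) (wk 2)
    · exact three (X := A 0) (Y := A 2) (fun g => by
        rcases hcases g with h | h | h <;> simp [h]) (wk 0) (wk 2)
    · exact three (X := A 0) (Y := A 1) (fun g => by
        rcases hcases g with h | h | h <;> simp [h]) (wk 0) (wk 1)
  · -- four sets
    by_contra hno
    push Not at hno
    have hQ : ∀ i, Big 4 (A i) ∨ ¬ Cov 22 Set.univ (A i * (A i)⁻¹) := by
      intro i
      by_contra hi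
      push Not at hi
      obtain ⟨H, e1, e2, e3⟩ := finish (n := 4) (m := 22) (by norm_num) (4 ^ (4 - 1))
        (by norm_num) (A i) hi.1 hi.2
      exact absurd e3 (not_le.2 (hno i H e1 e2))
    have hwQ : ¬ Cov 22 Set.univ (A w * (A w)⁻¹) := (hQ w).resolve_left hw
    apply hwQ
    have hcases : ∀ g, g ∈ A 0 ∨ g ∈ A 1 ∨ g ∈ A 2 ∨ g ∈ A 3 := fun g => by
      obtain ⟨i, hi⟩ := hA' g
      fin_cases i
      · exact Or.inl hi
      · exact Or.inr (Or.inl hi)
      · exact Or.inr (Or.inr (Or.inl hi))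
      · exact Or.inr (Or.inr (Or.inr hi))
    fin_cases w
    · exact four (X := A 1) (Y := A 2) (Z := A 3) (fun g => by
        rcases hcases g with h | h | h | h <;> simp [h]) (hQ 1) (hQ 2) (hQ 3)
    · exact four (X := A 0) (Y := A 2) (Z := A 3) (fun g => by
        rcases hcases g with h | h | h | h <;> simp [h]) (hQ 0) (hQ 2) (hQ 3)
    · exact four (X := A 0) (Y := A 1) (Z := A 3) (fun g => by
        rcases hcases g with h | h | h | h <;> simp [h]) (hQ 0) (hQ 1) (hQ 3)
    · exact four (X := A 0) (Y := A 1) (Z := A 2) (fun g => by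
        rcases hcases g with h | h | h | h <;> simp [h]) (hQ 0) (hQ 1) (hQ 2)

end Pool.Agent.Results.MP_bb8083_al.UpToFour
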